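import Pool.Agent.W705.PTGroup

set_option autoImplicit false

/-!
# Punctured torus bundles with rational twists: total L-spaces

Let `S` be the once-punctured torus, with two simple closed curves `a₀`, `b₀` meeting once, whose
fundamental group is free with basis given by the classes of the two curves.  Let `h` be the half
twist, which acts as `-1` on the homology and fixes the boundary.  In the mapping torus of `h` we
do surgery on `n` curves that lie in different fibres, each of them equal to `a₀` or `b₀` in its
fibre, with slopes `m ^ a = κ ^ b`, where `m` is the meridian, `κ` the curve pushed off in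
the fibre, `a ≥ 1` and `b ≥ 0`; the case `a = 1` means that the monodromy is changed by the
`b`-th power of a Dehn twist.  Finally we fill the boundary with slope `t ^ p δ ^ q`,
where `0 ≤ q ≤ p`, `δ` is the boundary of the fibre and `t` the dual curve.

We show that the fundamental group of the closed manifold is not left-orderable, and that every
homomorphism to a left-orderable group is trivial, for all choices of the parameters.

Idea.  Let the group act by order automorphisms on a complete linear order.  The last relation
shows that `t v` lies between `v` and `δ⁻¹ v` for all points `v`, so `s = (y x)⁻¹ t` moves `v` to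
a point between `x⁻¹ y⁻¹ v` and `y⁻¹ x⁻¹ v`.  If the conjugates of `x` and `y` by `s` move
the point `s v` in opposite directions then so do `x⁻¹` and `y⁻¹`; this is proved by induction on
the number of surgery curves.  An intermediate value argument shows that `x` and `y` have the same
fixed points and that these are fixed by `s`.  Between the fixed points `x` and `y` have constant
directions, which contradicts the previous remarks.
-/

namespace Pool.Agent.Results.MP_9ae2f3_gt.RationalTwistFillings

/-- A nontrivial group is left-orderable if it carries a strict total order that is invariant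
under left multiplication. -/
def LeftOrderable (G : Type*) [Group G] : Prop :=
  Nontrivial G ∧ ∃ lt : G → G → Prop, IsStrictTotalOrder G lt ∧
    ∀ a b c : G, lt a b ↔ lt (c * a) (c * b)

/-- The free group on `x, y, t` and `m i` for `i < n`. -/
abbrev F (n : ℕ) : Type := FreeGroup (Fin 3 ⊕ Fin n)

/-- The first generator of the fundamental group of the once-punctured torus. -/
def x {n : ℕ} : F n := FreeGroup.of (Sum.inl 0)

/-- The second generator of the fundamental group of the once-punctured torus. -/
def y {n : ℕ} : F n := FreeGroup.of (Sum.inl 1)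

/-- The stable letter, dual to the fibre. -/
def t {n : ℕ} : F n := FreeGroup.of (Sum.inl 2)

/-- The meridian of the `i`-th surgery curve. -/
def m {n : ℕ} (i : Fin n) : F n := FreeGroup.of (Sum.inr i)

/-- The basis of the fundamental group of the fibre above the first `i` surgery curves; it starts
with `(x⁻¹, y⁻¹)`, and passing a surgery curve equal to the second basis curve (`c i = true`)
multiplies the first basis element by the meridian, and conversely. -/
def basis {n : ℕ} (c : Fin n → Bool) : ℕ → F n × F n
  | 0 => (x⁻¹, y⁻¹)
  | i + 1 =>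
    if hi : i < n then
      if c ⟨i, hi⟩ then ((basis c i).1 * m ⟨i, hi⟩, (basis c i).2)
      else ((basis c i).1, (basis c i).2 * m ⟨i, hi⟩)
    else basis c i

/-- The class of the `i`-th surgery curve, the second basis element at its level if `c i = true`
and the first one otherwise. -/
def core {n : ℕ} (c : Fin n → Bool) (i : Fin n) : F n :=
  if c i then (basis c i).2 else (basis c i).1

/-- The relators: every meridian commutes with its curve and satisfies the surgery relation
`m ^ a = core ^ b`; conjugation by `t` is the basis at the top followed by the half twist, where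
the half twist is `u ↦ (y x) u(x⁻¹, y⁻¹) (y x)⁻¹`; and `t ^ p (x y x⁻¹ y⁻¹) ^ q = 1`. -/
def relators {n : ℕ} (c : Fin n → Bool) (a b : Fin n → ℕ) (p q : ℕ) : Set (F n) :=
  {w | (∃ i, w = m i * core c i * (m i)⁻¹ * (core c i)⁻¹ ∨ w = m i ^ a i * (core c i ^ b i)⁻¹) ∨
    w = t * x * t⁻¹ * (y * x * (basis c n).1 * (y * x)⁻¹)⁻¹ ∨
    w = t * y * t⁻¹ * (y * x * (basis c n).2 * (y * x)⁻¹)⁻¹ ∨
    w = t ^ p * (x * y * x⁻¹ * y⁻¹) ^ q}

/-- The fundamental group of the closed manifold. -/
abbrev FillingGroup {n : ℕ} (c : Fin n → Bool) (a b : Fin n → ℕ) (p q : ℕ) : Type :=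
  PresentedGroup (relators c a b p q)

open Pool.Agent.W705.PT in
theorem hom_trivial {n : ℕ} (c : Fin n → Bool) (a b : Fin n → ℕ) (p q : ℕ)
    (ha : ∀ i, 1 ≤ a i) (hp : 1 ≤ p) (hqp : q ≤ p)
    (H : Type*) [Group H] (hH : LeftOrderable H)
    (f : FillingGroup c a b p q →* H) (g : FillingGroup c a b p q) : f g = 1 := by
  classical
  obtain ⟨_, lt, hlt, hinv⟩ := hH
  let _ : LinearOrder H := linearOrderOfSTO lt
  have hinv' : ∀ a b c : H, a ≤ b ↔ c * a ≤ c * b := by
    intro a b c
    show (a = b ∨ lt a b) ↔ (c * a = c * b ∨ lt (c * a) (c * b))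
    rw [mul_right_inj, ← hinv]
  set φ : F n →* H := f.comp (PresentedGroup.mk (relators c a b p q)) with hφ
  have rel : ∀ w ∈ relators c a b p q, φ w = 1 := by
    intro w hw
    rw [hφ, MonoidHom.comp_apply, show PresentedGroup.mk (relators c a b p q) w = 1 from
      (PresentedGroup.one_of_mem hw), map_one]
  have r1 : ∀ i, φ (m i) * φ (core c i) = φ (core c i) * φ (m i) := by
    intro i
    have h1 := rel _ (Or.inl ⟨i, Or.inl rfl⟩)
    rw [map_mul, map_mul, map_mul, map_inv, map_inv, mul_inv_eq_one] at h1
    rw [mul_inv_eq_iff_eq_mul] at h1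
    exact h1
  have r2 : ∀ i, φ (m i) ^ a i = φ (core c i) ^ b i := by
    intro i
    have h1 := rel _ (Or.inl ⟨i, Or.inr rfl⟩)
    rw [map_mul, map_inv, map_pow, map_pow, mul_inv_eq_one] at h1
    exact h1
  have reach : ∀ i, GReach (φ x) (φ y) (φ (basis c i).1) (φ (basis c i).2) := by
    intro i
    induction i with
    | zero =>
      show GReach (φ x) (φ y) (φ x⁻¹) (φ y⁻¹)
      rw [map_inv, map_inv]; exact GReach.base
    | succ i ih =>
      by_cases hi : i < n
      · by_cases hc : c ⟨i, hi⟩ = true
        · have h1 : basis c (i + 1) = ((basis c i).1 * m ⟨i, hi⟩, (basis c i).2) := by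
            rw [basis, dif_pos hi, if_pos hc]
          have h2 : core c ⟨i, hi⟩ = (basis c i).2 := by rw [core, if_pos hc]
          have h3 := r1 ⟨i, hi⟩
          have h4 := r2 ⟨i, hi⟩
          rw [h2] at h3 h4
          rw [h1, map_mul]
          exact GReach.beta h3 (ha _) h4 ih
        · have h1 : basis c (i + 1) = ((basis c i).1, (basis c i).2 * m ⟨i, hi⟩) := by
            rw [basis, dif_pos hi, if_neg hc]
          have h2 : core c ⟨i, hi⟩ = (basis c i).1 := by rw [core, if_neg hc]
          have h3 := r1 ⟨i, hi⟩
          have h4 := r2 ⟨i, hi⟩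
          rw [h2] at h3 h4
          rw [h1, map_mul]
          exact GReach.alpha h3 (ha _) h4 ih
      · rw [show basis c (i + 1) = basis c i by rw [basis, dif_neg hi]]
        exact ih
  have e1 : φ t * φ x * (φ t)⁻¹ = (φ y * φ x) * φ (basis c n).1 * (φ y * φ x)⁻¹ := by
    have h1 := rel _ (Or.inr (Or.inl rfl))
    simp only [map_mul, map_inv] at h1
    rw [mul_inv_eq_one] at h1
    exact h1
  have e2 : φ t * φ y * (φ t)⁻¹ = (φ y * φ x) * φ (basis c n).2 * (φ y * φ x)⁻¹ := by
    have h1 := rel _ (Or.inr (Or.inr (Or.inl rfl)))
    simp only [map_mul, map_inv] at h1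
    rw [mul_inv_eq_one] at h1
    exact h1
  have e3 : φ t ^ p * (φ x * φ y * (φ x)⁻¹ * (φ y)⁻¹) ^ q = 1 := by
    have h1 := rel _ (Or.inr (Or.inr (Or.inr rfl)))
    simp only [map_mul, map_inv, map_pow] at h1
    exact h1
  obtain ⟨x1, y1, t1⟩ := eq_one_of_rel hinv' (reach n) e1 e2 hp hqp e3
  have mcore : ∀ i, φ (core c i) = 1 → φ (m i) = 1 := by
    intro i h1
    have h2 := r2 i
    rw [h1, one_pow] at h2
    exact eq_one_of_pow hinv' (ha i) h2
  have triv : ∀ i, φ (basis c i).1 = 1 ∧ φ (basis c i).2 = 1 := by
    intro i
    induction i with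
    | zero =>
      show φ x⁻¹ = 1 ∧ φ y⁻¹ = 1
      rw [map_inv, map_inv, x1, y1]; simp
    | succ i ih =>
      by_cases hi : i < n
      · by_cases hc : c ⟨i, hi⟩ = true
        · have h1 : basis c (i + 1) = ((basis c i).1 * m ⟨i, hi⟩, (basis c i).2) := by
            rw [basis, dif_pos hi, if_pos hc]
          have h2 : core c ⟨i, hi⟩ = (basis c i).2 := by rw [core, if_pos hc]
          have h3 := mcore ⟨i, hi⟩ (by rw [h2]; exact ih.2)
          rw [h1, map_mul, h3, ih.1, ih.2]; simp
        · have h1 : basis c (i + 1) = ((basis c i).1, (basis c i).2 * m ⟨i, hi⟩) := by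
            rw [basis, dif_pos hi, if_neg hc]
          have h2 : core c ⟨i, hi⟩ = (basis c i).1 := by rw [core, if_neg hc]
          have h3 := mcore ⟨i, hi⟩ (by rw [h2]; exact ih.1)
          rw [h1, map_mul, h3, ih.1, ih.2]; simp
      · rw [show basis c (i + 1) = basis c i by rw [basis, dif_neg hi]]
        exact ih
  have hm : ∀ i, φ (m i) = 1 := by
    intro i
    apply mcore
    rw [core]
    split_ifs
    · exact (triv i).2
    · exact (triv i).1
  have hf : f = 1 := by
    apply PresentedGroup.ext
    rintro (i | i)
    · fin_cases i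
      · exact x1
      · exact y1
      · exact t1
    · exact hm i
  rw [hf]; rfl

/-- For all `n`, all choices of the curves, all `a i ≥ 1`, `b i ≥ 0` and all `p ≥ 1`,
`0 ≤ q ≤ p` the group is not left-orderable, and it has only the trivial homomorphism to a
left-orderable group. -/
theorem result {n : ℕ} (c : Fin n → Bool) (a b : Fin n → ℕ) (p q : ℕ)
    (ha : ∀ i, 1 ≤ a i) (hp : 1 ≤ p) (hqp : q ≤ p) :
    ¬ LeftOrderable (FillingGroup c a b p q) ∧
    ∀ (H : Type*) [Group H], LeftOrderable H →
      ∀ f : FillingGroup c a b p q →* H, ∀ g, f g = 1 := by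
  refine ⟨fun hG => ?_, fun H _ hH f g => hom_trivial c a b p q ha hp hqp H hH f g⟩
  obtain ⟨u, v, huv⟩ := hG.1
  have key := hom_trivial c a b p q ha hp hqp (FillingGroup c a b p q) hG (MonoidHom.id _)
  exact huv (by
    have h1 := key u
    have h2 := key v
    simp only [MonoidHom.id_apply] at h1 h2
    rw [h1, h2])

end Pool.Agent.Results.MP_9ae2f3_gt.RationalTwistFillings
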